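import Mathlib
import Pool.Agent.W696.TS.Asym

/-!
A reflexive asymptotic-subsequential-`c₀` Banach space into which the Hamming graphs embed
equi-coarsely (the negated form of Q1).
-/
set_option autoImplicit false

namespace Pool.Agent.Results.MP_6dccca_an.HammingReflexive

open Pool.Agent.W696.TS

theorem result :
    ∃ (X : Type) (_ : NormedAddCommGroup X) (_ : NormedSpace ℝ X) (_ : CompleteSpace X),
      ¬ FiniteDimensional ℝ X ∧
      Function.Surjective (NormedSpace.inclusionInDoubleDual ℝ X) ∧
      AsymptoticSubsequentialC0 X ∧
      EquiCoarselyEmbeds HV dH X :=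
  ⟨X, inferInstance, inferInstance, inferInstance, X_infinite, X_reflexive, X_asym, hamming_WW⟩

end Pool.Agent.Results.MP_6dccca_an.HammingReflexive
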