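import Mathlib
import Pool.Agent.W696.TS.TStar

/-!
The Hamming graphs embed equi-coarsely into `T*(T*)` (the negated form of Q2).
-/
set_option autoImplicit false

namespace Pool.Agent.Results.MP_6dccca_an.HammingTStarTStar

open Pool.Agent.W696.TS
open Pool.Agent.H825R3.Tsi (IsTsirelson)

theorem result :
    (∃ (T : Type) (_ : NormedAddCommGroup T) (_ : NormedSpace ℝ T) (e : ℕ → T),
      IsTsirelson T e) ∧
    ∀ (T : Type) [NormedAddCommGroup T] [NormedSpace ℝ T] (e : ℕ → T), IsTsirelson T e →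
      (∃ (Y : Type) (_ : NormedAddCommGroup Y) (_ : NormedSpace ℝ Y)
        (Θ : Y →ₗ[ℝ] (ℕ → StrongDual ℝ T)), IsTStarTStar e Y Θ) ∧
      ∀ (Y : Type) [NormedAddCommGroup Y] [NormedSpace ℝ Y]
        (Θ : Y →ₗ[ℝ] (ℕ → StrongDual ℝ T)), IsTStarTStar e Y Θ → EquiCoarselyEmbeds HV dH Y :=
  ⟨⟨_, _, _, _, Pool.Agent.H825R3.Tsi.isTsirelson_TT⟩, fun _ _ _ _ h =>
    ⟨⟨TStarTStar h, _, _, valL h, isTStarTStar_concrete h⟩, fun Y _ _ Θ hY =>
      hamming_all h Y Θ hY⟩⟩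

end Pool.Agent.Results.MP_6dccca_an.HammingTStarTStar
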